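import Pool.Agent.P8H64.GP.Stm

/-!
# Package TILT of the project GP (MP_130bb2_pr): a change of variables for the standard Gaussian law
-/

set_option autoImplicit false
set_option linter.all false

namespace Pool.Agent.P8H73.GP

open MeasureTheory ProbabilityTheory
open scoped ENNReal
open Pool.Agent.P8H64.GP (gr S_TILT)

/-- The density on the line. -/
noncomputable def rho (a x : ℝ) : ℝ≥0∞ := ENNReal.ofReal (a * Real.exp (-((a ^ 2 - 1) / 2) * x ^ 2))

lemma measurable_rho (a : ℝ) : Measurable (rho a) := by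
  unfold rho
  fun_prop

/-- The change of variables on the line. -/
lemma tilt_line (a : ℝ) (ha : 0 < a) (F : ℝ → ℝ≥0∞) (hF : Measurable F) :
    ∫⁻ x, F x ∂(gaussianReal 0 1) = ∫⁻ x, F (a * x) * rho a x ∂(gaussianReal 0 1) := by
  have hpdf : Measurable (gaussianPDF 0 1) := measurable_gaussianPDF 0 1
  have hm : Measurable (fun x : ℝ => a * x) := measurable_const_mul a
  have hG : Measurable (fun x : ℝ => F (a * x) * rho a x) := (hF.comp hm).mul (measurable_rho a)
  rw [gaussianReal_of_var_ne_zero 0 one_ne_zero,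
    lintegral_withDensity_eq_lintegral_mul _ hpdf hF, lintegral_withDensity_eq_lintegral_mul _ hpdf hG]
  have hH : Measurable (fun x : ℝ => (gaussianPDF 0 1 * F) (a * x)) := (hpdf.mul hF).comp hm
  conv_lhs => rw [← Real.smul_map_volume_mul_left ha.ne']
  rw [lintegral_smul_measure, lintegral_map (hpdf.mul hF) hm, smul_eq_mul, ← lintegral_const_mul _ hH]
  refine lintegral_congr fun x => ?_
  simp only [Pi.mul_apply]
  have h1 : ENNReal.ofReal |a| * gaussianPDF 0 1 (a * x) = gaussianPDF 0 1 x * rho a x := by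
    unfold gaussianPDF rho
    rw [← ENNReal.ofReal_mul (abs_nonneg a), ← ENNReal.ofReal_mul (gaussianPDFReal_nonneg 0 1 x), abs_of_pos ha]
    congr 1
    unfold gaussianPDFReal
    have h2 : Real.exp (-(a * x - 0) ^ 2 / (2 * ((1 : NNReal) : ℝ))) =
        Real.exp (-(x - 0) ^ 2 / (2 * ((1 : NNReal) : ℝ))) * Real.exp (-((a ^ 2 - 1) / 2) * x ^ 2) := by
      rw [← Real.exp_add]
      congr 1
      rw [NNReal.coe_one]
      ring
    rw [h2]
    ring
  calc ENNReal.ofReal |a| * (gaussianPDF 0 1 (a * x) * F (a * x))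
      = (ENNReal.ofReal |a| * gaussianPDF 0 1 (a * x)) * F (a * x) := by rw [mul_assoc]
    _ = gaussianPDF 0 1 x * (F (a * x) * rho a x) := by rw [h1]; ring

/-- The integral of a product of functions of the coordinates. -/
lemma lintegral_prod_coord (r : ℕ) (g : Fin r → ℝ → ℝ≥0∞) (hg : ∀ k, Measurable (g k)) :
    ∫⁻ v, ∏ k, g k (v k) ∂(gr r) = ∏ k, ∫⁻ x, g k x ∂(gaussianReal 0 1) := by
  have hind : iIndepFun (fun (k : Fin r) (v : Fin r → ℝ) => g k (v k)) (gr r) :=
    iIndepFun_pi (fun k => (hg k).aemeasurable)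
  rw [lintegral_prod_eq_prod_lintegral_of_indepFun Finset.univ (fun (k : Fin r) (v : Fin r → ℝ) => g k (v k)) hind
    (fun k => (hg k).comp (measurable_pi_apply k))]
  refine Finset.prod_congr rfl fun k _ => ?_
  exact (measurePreserving_eval (fun _ : Fin r => gaussianReal 0 1) k).lintegral_comp (hg k)

/-- The standard Gaussian law as the image of a measure with a density. -/
lemma gr_eq (r : ℕ) (a : ℝ) (ha : 0 < a) :
    gr r = ((gr r).withDensity (fun v => ∏ k, rho a (v k))).map (fun (v : Fin r → ℝ) (k : Fin r) => a * v k) := by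
  have hm : Measurable (fun (v : Fin r → ℝ) (k : Fin r) => a * v k) := by
    fun_prop
  refine Measure.pi_eq fun s hs => ?_
  rw [Measure.map_apply hm (MeasurableSet.univ_pi hs),
    withDensity_apply _ (hm (MeasurableSet.univ_pi hs)), ← lintegral_indicator (hm (MeasurableSet.univ_pi hs))]
  have hsm : ∀ k, MeasurableSet ((fun x : ℝ => a * x) ⁻¹' s k) := fun k => measurable_const_mul a (hs k)
  have h1 : ∀ v : Fin r → ℝ, ((fun (v : Fin r → ℝ) (k : Fin r) => a * v k) ⁻¹' Set.univ.pi s).indicator
      (fun v => ∏ k, rho a (v k)) v = ∏ k, (((fun x : ℝ => a * x) ⁻¹' s k).indicator (rho a)) (v k) := by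
    intro v
    by_cases hv : v ∈ (fun (v : Fin r → ℝ) (k : Fin r) => a * v k) ⁻¹' Set.univ.pi s
    · rw [Set.indicator_of_mem hv]
      refine Finset.prod_congr rfl fun k _ => ?_
      have hk : v k ∈ (fun x : ℝ => a * x) ⁻¹' s k := (Set.mem_univ_pi.1 hv) k
      rw [Set.indicator_of_mem hk]
    · rw [Set.indicator_of_notMem hv]
      have h2 : ∃ k, v k ∉ (fun x : ℝ => a * x) ⁻¹' s k := by
        by_contra hcon
        push Not at hcon
        exact hv (Set.mem_univ_pi.2 hcon)
      obtain ⟨k, hk⟩ := h2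
      symm
      exact Finset.prod_eq_zero (Finset.mem_univ k) (Set.indicator_of_notMem hk _)
  rw [lintegral_congr h1, lintegral_prod_coord r _ (fun k => (measurable_rho a).indicator (hsm k))]
  refine Finset.prod_congr rfl fun k _ => ?_
  rw [← lintegral_indicator_one (hs k), tilt_line a ha _ (measurable_one.indicator (hs k))]
  refine lintegral_congr fun x => ?_
  by_cases hx : a * x ∈ s k
  · rw [Set.indicator_of_mem hx, Set.indicator_of_mem (show x ∈ (fun x : ℝ => a * x) ⁻¹' s k from hx), Pi.one_apply,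
      one_mul]
  · rw [Set.indicator_of_notMem hx, Set.indicator_of_notMem (show x ∉ (fun x : ℝ => a * x) ⁻¹' s k from hx), zero_mul]

theorem tilt : S_TILT := by
  intro r F hF _ a ha
  have hm : Measurable (fun (v : Fin r → ℝ) (k : Fin r) => a * v k) := by
    fun_prop
  have hP : Measurable (fun v : Fin r → ℝ => ∏ k, rho a (v k)) :=
    Finset.measurable_prod _ fun k _ => (measurable_rho a).comp (measurable_pi_apply k)
  have hPeq : ∀ v : Fin r → ℝ, ∏ k, rho a (v k) =
      ENNReal.ofReal (a ^ r * Real.exp (-((a ^ 2 - 1) / 2) * ∑ k, v k ^ 2)) := by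
    intro v
    unfold rho
    rw [← ENNReal.ofReal_prod_of_nonneg (fun k _ => by positivity)]
    congr 1
    rw [Finset.prod_mul_distrib, Finset.prod_const, Finset.card_univ, Fintype.card_fin, ← Real.exp_sum, Finset.mul_sum]
  conv_lhs => rw [gr_eq r a ha]
  rw [integral_map hm.aemeasurable hF.aestronglyMeasurable,
    integral_withDensity_eq_integral_toReal_smul hP (Filter.Eventually.of_forall fun v => by
      rw [hPeq]; exact ENNReal.ofReal_lt_top), ← integral_const_mul]
  refine integral_congr_ae (Filter.Eventually.of_forall fun v => ?_)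
  beta_reduce
  rw [hPeq, ENNReal.toReal_ofReal (by positivity), smul_eq_mul]
  ring

end Pool.Agent.P8H73.GP
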